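import Pool.Agent.Y958.E.Stm

/-!
# Multiplicative functions which are small at many primes have small means in progressions
-/

set_option autoImplicit false

open Finset

namespace Pool.Agent.Y220.EL

open Pool.Agent.Y958.E

/-- the factor of the prime `p` -/
noncomputable def cf (τ : ℝ) (p m : ℕ) : ℝ := by
  classical exact 1 - if p ∣ m ∧ ¬ p ^ 2 ∣ m then τ else 0

theorem cf_pos {τ : ℝ} (h1 : 0 < τ) (h2 : τ < 1) (p m : ℕ) : 0 ≤ cf τ p m := by
  unfold cf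
  split_ifs <;> linarith

theorem cf_congr (τ : ℝ) {p m m' : ℕ} (h : (p ∣ m ∧ ¬ p ^ 2 ∣ m) ↔ (p ∣ m' ∧ ¬ p ^ 2 ∣ m')) :
    cf τ p m = cf τ p m' := by
  unfold cf
  by_cases h1 : p ∣ m ∧ ¬ p ^ 2 ∣ m
  · rw [if_pos h1, if_pos (h.1 h1)]
  · rw [if_neg h1, if_neg (fun h2 => h1 (h.2 h2))]

theorem cf_modEq (τ : ℝ) {p m m' : ℕ} (h : m ≡ m' [MOD p ^ 2]) : cf τ p m = cf τ p m' := by
  apply cf_congr
  rw [h.dvd_iff (dvd_pow_self p two_ne_zero), h.dvd_iff (dvd_refl (p ^ 2))]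

theorem norm_le_prod {g : ℕ → ℂ} (hg : BM g) {τ : ℝ} (hτ1 : τ < 1) (P : Finset ℕ) :
    (∀ p ∈ P, p.Prime ∧ ‖g p‖ < 1 - τ) → ∀ m : ℕ, 1 ≤ m → ‖g m‖ ≤ ∏ p ∈ P, cf τ p m := by
  classical
  induction P using Finset.induction_on with
  | empty =>
    intro _ m _
    rw [Finset.prod_empty]
    exact hg.1 m
  | insert p P hp ih =>
    intro hP m hm
    rw [Finset.prod_insert hp]
    have hP' : ∀ q ∈ P, q.Prime ∧ ‖g q‖ < 1 - τ := fun q hq => hP q (Finset.mem_insert_of_mem hq)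
    obtain ⟨hpp, hgp⟩ := hP p (Finset.mem_insert_self p P)
    by_cases h1 : p ∣ m ∧ ¬ p ^ 2 ∣ m
    · obtain ⟨⟨m', rfl⟩, h2⟩ := h1
      have h3 : ¬ p ∣ m' := by
        intro h4
        apply h2
        rw [sq]
        exact Nat.mul_dvd_mul_left p h4
      have hm' : 1 ≤ m' := by
        rcases Nat.eq_zero_or_pos m' with h | h
        · subst h
          exact absurd (dvd_zero p) h3
        · exact h
      have hcop : Nat.Coprime p m' := (Nat.Prime.coprime_iff_not_dvd hpp).2 h3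
      rw [hg.2 p m' hpp.one_lt.le hm' hcop, norm_mul]
      have h4 : cf τ p (p * m') = 1 - τ := by
        unfold cf
        rw [if_pos ⟨Dvd.intro m' rfl, h2⟩]
      have h5 : ∏ q ∈ P, cf τ q (p * m') = ∏ q ∈ P, cf τ q m' := by
        refine Finset.prod_congr rfl fun q hq => ?_
        have hqp : q ≠ p := fun h => hp (h ▸ hq)
        have hqc : Nat.Coprime q p := (Nat.coprime_primes (hP' q hq).1 hpp).2 hqp
        apply cf_congr
        rw [hqc.dvd_mul_left, (Nat.Coprime.pow_left 2 hqc).dvd_mul_left]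
      rw [h4, h5]
      exact mul_le_mul hgp.le (ih hP' m' hm') (norm_nonneg _) (by linarith)
    · have h4 : cf τ p m = 1 := by
        unfold cf
        rw [if_neg h1, sub_zero]
      rw [h4, one_mul]
      exact ih hP' m hm

theorem sum_crt (f₁ f₂ : ℕ → ℝ) (Q₁ Q₂ : ℕ) (h1 : 0 < Q₁) (h2 : 0 < Q₂) (hc : Nat.Coprime Q₁ Q₂)
    (p1 : ∀ n, f₁ (n % Q₁) = f₁ n) (p2 : ∀ n, f₂ (n % Q₂) = f₂ n) :
    ∑ n ∈ range (Q₁ * Q₂), f₁ n * f₂ n = (∑ n ∈ range Q₁, f₁ n) * ∑ n ∈ range Q₂, f₂ n := by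
  rw [Finset.sum_mul_sum, ← Finset.sum_product']
  refine Finset.sum_nbij (fun n => (n % Q₁, n % Q₂)) ?_ ?_ ?_ ?_
  · intro n _
    rw [Finset.mem_product, Finset.mem_range, Finset.mem_range]
    exact ⟨Nat.mod_lt _ h1, Nat.mod_lt _ h2⟩
  · intro n hn n' hn' h
    rw [Finset.coe_range, Set.mem_Iio] at hn hn'
    simp only [Prod.mk.injEq] at h
    have h3 : n ≡ n' [MOD Q₁ * Q₂] := (Nat.modEq_and_modEq_iff_modEq_mul hc).1 h
    exact h3.eq_of_lt_of_lt hn hn'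
  · rintro ⟨x, y⟩ hx
    rw [Finset.mem_coe, Finset.mem_product, Finset.mem_range, Finset.mem_range] at hx
    have hk := (Nat.chineseRemainder hc x y).2
    refine ⟨(Nat.chineseRemainder hc x y : ℕ), ?_, ?_⟩
    · rw [Finset.coe_range, Set.mem_Iio]
      exact Nat.chineseRemainder_lt_mul hc x y h1.ne' h2.ne'
    · simp only [Prod.mk.injEq]
      constructor
      · have := hk.1
        rw [Nat.ModEq, Nat.mod_eq_of_lt hx.1] at this
        exact this
      · have := hk.2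
        rw [Nat.ModEq, Nat.mod_eq_of_lt hx.2] at this
        exact this
  · intro n _
    rw [p1, p2]

theorem cf_per (τ : ℝ) (a b p Q : ℕ) (hQ : p ^ 2 ∣ Q) (n : ℕ) :
    cf τ p (a * (n % Q) + b) = cf τ p (a * n + b) := by
  apply cf_modEq
  exact (((Nat.mod_modEq n Q).of_dvd hQ).mul_left a).add_right b

theorem prod_per (τ : ℝ) (a b : ℕ) (P : Finset ℕ) (n : ℕ) :
    ∏ p ∈ P, cf τ p (a * (n % ∏ p ∈ P, p ^ 2) + b) = ∏ p ∈ P, cf τ p (a * n + b) :=
  Finset.prod_congr rfl fun p hp => cf_per τ a b p _ (Finset.dvd_prod_of_mem (fun p => p ^ 2) hp) n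

theorem sum_prod (τ : ℝ) (a b : ℕ) (P : Finset ℕ) : (∀ p ∈ P, p.Prime) →
    ∑ n ∈ range (∏ p ∈ P, p ^ 2), ∏ p ∈ P, cf τ p (a * n + b) =
      ∏ p ∈ P, ∑ n ∈ range (p ^ 2), cf τ p (a * n + b) := by
  classical
  induction P using Finset.induction_on with
  | empty => intro _; simp
  | insert p P hp ih =>
    intro hP
    have hP' : ∀ q ∈ P, q.Prime := fun q hq => hP q (Finset.mem_insert_of_mem hq)
    have hpp := hP p (Finset.mem_insert_self p P)
    rw [Finset.prod_insert hp, Finset.prod_insert hp, ← ih hP']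
    have h1 : ∀ n, ∏ q ∈ insert p P, cf τ q (a * n + b) =
        cf τ p (a * n + b) * ∏ q ∈ P, cf τ q (a * n + b) := fun n => Finset.prod_insert hp
    rw [Finset.sum_congr rfl fun n _ => h1 n]
    refine sum_crt (fun n => cf τ p (a * n + b)) (fun n => ∏ q ∈ P, cf τ q (a * n + b)) _ _
      (pow_pos hpp.pos 2) (Finset.prod_pos fun q hq => pow_pos (hP' q hq).pos 2) ?_
      (fun n => cf_per τ a b p _ dvd_rfl n) (fun n => prod_per τ a b P n)
    refine Nat.Coprime.prod_right fun q hq => ?_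
    refine Nat.Coprime.pow 2 2 ((Nat.coprime_primes hpp (hP' q hq)).2 ?_)
    rintro rfl
    exact hp hq

/-- the mean of one factor -/
theorem sum_one {τ : ℝ} (hτ : 0 < τ) {a p : ℕ} (b : ℕ) (hp : p.Prime) (ha : ¬ p ∣ a) :
    ∑ n ∈ range (p ^ 2), cf τ p (a * n + b) ≤ (p : ℝ) ^ 2 * Real.exp (-(τ / 2) * (1 / p)) := by
  classical
  have hp0 : (0 : ℝ) < p := by exact_mod_cast hp.pos
  have hp2 : (2 : ℝ) ≤ p := by exact_mod_cast hp.two_le
  -- the residues
  have hcop : Nat.Coprime a (p ^ 2) :=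
    Nat.Coprime.pow_right 2 ((Nat.Prime.coprime_iff_not_dvd hp).2 ha).symm
  have : NeZero (p ^ 2) := ⟨(pow_pos hp.pos 2).ne'⟩
  have hex : ∀ k : ℕ, ∃ n < p ^ 2, a * n + b ≡ p * k [MOD p ^ 2] := by
    intro k
    refine ⟨((((p * k : ℕ) : ZMod (p ^ 2)) - b) * (a : ZMod (p ^ 2))⁻¹).val, ZMod.val_lt _, ?_⟩
    rw [← ZMod.natCast_eq_natCast_iff]
    push_cast
    rw [ZMod.natCast_val, ZMod.cast_id]
    have h1 := ZMod.coe_mul_inv_eq_one a hcop
    calc (a : ZMod (p ^ 2)) * (((p : ZMod (p ^ 2)) * k - b) * (a : ZMod (p ^ 2))⁻¹) + b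
        = ((p : ZMod (p ^ 2)) * k - b) * ((a : ZMod (p ^ 2)) * (a : ZMod (p ^ 2))⁻¹) + b := by ring
      _ = (p : ZMod (p ^ 2)) * k := by rw [h1]; ring
  choose ν hν1 hν2 using hex
  have hcard : p - 1 ≤ ((range (p ^ 2)).filter fun n =>
      p ∣ a * n + b ∧ ¬ p ^ 2 ∣ a * n + b).card := by
    have h1 : ((Icc 1 (p - 1)).image ν) ⊆ (range (p ^ 2)).filter fun n =>
        p ∣ a * n + b ∧ ¬ p ^ 2 ∣ a * n + b := by
      intro n hn
      obtain ⟨k, hk, rfl⟩ := Finset.mem_image.1 hn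
      rw [Finset.mem_Icc] at hk
      rw [Finset.mem_filter, Finset.mem_range]
      refine ⟨hν1 k, ?_, ?_⟩
      · rw [(hν2 k).dvd_iff (dvd_pow_self p two_ne_zero)]
        exact Dvd.intro k rfl
      · rw [(hν2 k).dvd_iff (dvd_refl (p ^ 2)), sq]
        intro h2
        have h3 := Nat.dvd_of_mul_dvd_mul_left hp.pos h2
        have h4 := Nat.le_of_dvd (by omega) h3
        omega
    refine le_trans ?_ (Finset.card_le_card h1)
    rw [Finset.card_image_of_injOn, Nat.card_Icc]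
    · omega
    · intro k hk k' hk' h
      rw [Finset.coe_Icc, Set.mem_Icc] at hk hk'
      have h2 : p * k ≡ p * k' [MOD p ^ 2] := by
        have h3 := (hν2 k).symm
        rw [h] at h3
        exact h3.trans (hν2 k')
      have hp1 := hp.two_le
      refine Nat.eq_of_mul_eq_mul_left hp.pos (h2.eq_of_lt_of_lt ?_ ?_)
      · rw [sq]; exact Nat.mul_lt_mul_of_pos_left (by omega) hp.pos
      · rw [sq]; exact Nat.mul_lt_mul_of_pos_left (by omega) hp.pos
  have hsum : ∑ n ∈ range (p ^ 2), cf τ p (a * n + b) = (p : ℝ) ^ 2 -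
      τ * ((range (p ^ 2)).filter fun n => p ∣ a * n + b ∧ ¬ p ^ 2 ∣ a * n + b).card := by
    unfold cf
    rw [Finset.sum_sub_distrib, Finset.sum_const, Finset.card_range, nsmul_eq_mul, mul_one,
      ← Finset.sum_filter, Finset.sum_const, nsmul_eq_mul, mul_comm τ]
    push_cast
    congr 3
  rw [hsum]
  have h1 : ((p : ℝ) - 1) ≤
      ((range (p ^ 2)).filter fun n => p ∣ a * n + b ∧ ¬ p ^ 2 ∣ a * n + b).card := by
    have h2 : ((p - 1 : ℕ) : ℝ) ≤ _ := Nat.cast_le.2 hcard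
    rwa [Nat.cast_sub hp.one_lt.le, Nat.cast_one] at h2
  have h2 : 1 - (τ / 2) * (1 / p) ≤ Real.exp (-(τ / 2) * (1 / p)) := by
    have := Real.add_one_le_exp (-(τ / 2) * (1 / (p : ℝ)))
    linarith
  have h3 : (p : ℝ) ^ 2 * (1 - (τ / 2) * (1 / p)) ≤
      (p : ℝ) ^ 2 * Real.exp (-(τ / 2) * (1 / p)) := mul_le_mul_of_nonneg_left h2 (by positivity)
  refine le_trans ?_ h3
  have h4 : (p : ℝ) ^ 2 * (1 - (τ / 2) * (1 / p)) = (p : ℝ) ^ 2 - τ * (p / 2) := by
    field_simp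
  rw [h4]
  have h5 : τ * ((p : ℝ) / 2) ≤ τ * ((p : ℝ) - 1) := mul_le_mul_of_nonneg_left (by linarith) hτ.le
  have h6 := mul_le_mul_of_nonneg_left h1 hτ.le
  linarith

theorem sum_blocks (f : ℕ → ℝ) (hf : ∀ n, 0 ≤ f n) (Q : ℕ) (hQ : 0 < Q)
    (hp : ∀ n, f (n % Q) = f n) (N : ℕ) :
    ∑ n ∈ range N, f n ≤ ((N / Q : ℕ) + 1) * ∑ n ∈ range Q, f n := by
  have h1 : ∀ k : ℕ, ∑ n ∈ range (Q * k), f n = k * ∑ n ∈ range Q, f n := by
    intro k
    induction k with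
    | zero => simp
    | succ k ih =>
      rw [Nat.mul_succ, Finset.sum_range_add, ih]
      have h2 : ∀ x ∈ range Q, f (Q * k + x) = f x := by
        intro x _
        rw [← hp (Q * k + x), Nat.mul_add_mod, hp]
      rw [Finset.sum_congr rfl h2]
      push_cast
      ring
  have h2 : N ≤ Q * (N / Q + 1) := by
    have := Nat.lt_mul_div_succ N hQ
    exact this.le
  have h3 : ∑ n ∈ range N, f n ≤ ∑ n ∈ range (Q * (N / Q + 1)), f n :=
    Finset.sum_le_sum_of_subset_of_nonneg (Finset.range_subset_range.2 h2) fun n _ _ => hf n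
  rw [h1] at h3
  push_cast at h3
  exact h3

theorem prod_Icc_fac (z : ℕ) : ∏ p ∈ Icc 1 z, p = z.factorial := by
  induction z with
  | zero => simp
  | succ z ih => rw [Finset.prod_Icc_succ_top (by omega), ih, Nat.factorial_succ, mul_comm]

theorem tkl : S_TKL := by
  classical
  intro τ hτ hτ1
  refine ⟨2 * Real.log 4 / τ, fun a b z ha => ⟨(z.factorial) ^ 2 + 4, fun g hg hK N hN => ?_⟩⟩
  set P := (Icc 1 z).filter (fun p => p.Prime ∧ ¬ p ∣ a ∧ ‖g p‖ < 1 - τ) with hP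
  have hP1 : ∀ p ∈ P, p.Prime ∧ ¬ p ∣ a ∧ ‖g p‖ < 1 - τ := fun p hp => (Finset.mem_filter.1 hp).2
  set Q : ℕ := ∏ p ∈ P, p ^ 2 with hQ
  have hQ0 : 0 < Q := Finset.prod_pos fun p hp => pow_pos (hP1 p hp).1.pos 2
  have hQz : Q ≤ z.factorial ^ 2 := by
    have h1 : ∏ p ∈ Icc 1 z, p = z.factorial := prod_Icc_fac z
    rw [← h1, ← Finset.prod_pow]
    refine Finset.prod_le_prod_of_subset_of_one_le' (Finset.filter_subset _ _) fun p hp _ => ?_
    rw [Finset.mem_Icc] at hp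
    exact Nat.one_le_pow _ _ hp.1
  set f : ℕ → ℝ := fun n => ∏ p ∈ P, cf τ p (a * n + b) with hf
  have hf0 : ∀ n, 0 ≤ f n := fun n => Finset.prod_nonneg fun p _ => cf_pos hτ hτ1 p _
  -- the mean over a period
  have hmean : ∑ n ∈ range Q, f n ≤ Q / 4 := by
    rw [hf, hQ, sum_prod τ a b P fun p hp => (hP1 p hp).1]
    have h1 : ∏ p ∈ P, ∑ n ∈ range (p ^ 2), cf τ p (a * n + b) ≤
        ∏ p ∈ P, ((p : ℝ) ^ 2 * Real.exp (-(τ / 2) * (1 / p))) :=
      Finset.prod_le_prod (fun p _ => Finset.sum_nonneg fun n _ => cf_pos hτ hτ1 p _)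
        fun p hp => sum_one hτ b (hP1 p hp).1 (hP1 p hp).2.1
    refine h1.trans ?_
    rw [Finset.prod_mul_distrib, ← Real.exp_sum, ← Finset.mul_sum]
    have h2 : Real.exp (-(τ / 2) * ∑ p ∈ P, 1 / (p : ℝ)) ≤ 1 / 4 := by
      have h3 : -(τ / 2) * ∑ p ∈ P, 1 / (p : ℝ) ≤ -Real.log 4 := by
        have h4 : τ / 2 * (2 * Real.log 4 / τ) ≤ τ / 2 * ∑ p ∈ P, 1 / (p : ℝ) :=
          mul_le_mul_of_nonneg_left hK (by linarith)
        have h5 : τ / 2 * (2 * Real.log 4 / τ) = Real.log 4 := by field_simp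
        linarith
      refine (Real.exp_le_exp.2 h3).trans (le_of_eq ?_)
      rw [Real.exp_neg, Real.exp_log (by norm_num)]
      norm_num
    have h3 : ((∏ p ∈ P, p ^ 2 : ℕ) : ℝ) = ∏ p ∈ P, (p : ℝ) ^ 2 := by push_cast; rfl
    rw [h3]
    have h4 : 0 ≤ ∏ p ∈ P, (p : ℝ) ^ 2 := Finset.prod_nonneg fun p _ => by positivity
    have h5 := mul_le_mul_of_nonneg_left h2 h4
    linarith
  have hblk := sum_blocks f hf0 Q hQ0 (fun n => prod_per τ a b P n) N
  -- the comparison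
  have hcmp : ∀ n ∈ range N, ‖g (a * n + b)‖ ≤ f n + if n = 0 then 1 else 0 := by
    intro n _
    rcases Nat.eq_zero_or_pos (a * n + b) with h | h
    · have hn : n = 0 := by
        by_contra hn
        have := Nat.mul_pos ha (Nat.pos_of_ne_zero hn)
        omega
      rw [if_pos hn]
      have := hg.1 (a * n + b)
      have := hf0 n
      linarith
    · have h1 := norm_le_prod hg hτ1 P (fun p hp => ⟨(hP1 p hp).1, (hP1 p hp).2.2⟩) (a * n + b) h
      have h2 : (0 : ℝ) ≤ if n = 0 then 1 else 0 := by split_ifs <;> norm_num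
      have h3 : ∏ p ∈ P, cf τ p (a * n + b) = f n := rfl
      rw [h3] at h1
      linarith
  have h1 := Finset.sum_le_sum hcmp
  rw [Finset.sum_add_distrib] at h1
  have h2 : ∑ n ∈ range N, (if n = 0 then (1 : ℝ) else 0) ≤ 1 := by
    rw [Finset.sum_ite_eq']
    split_ifs <;> norm_num
  have h3 : ((N / Q : ℕ) + 1 : ℝ) * ∑ n ∈ range Q, f n ≤ ((N / Q : ℕ) + 1) * (Q / 4) :=
    mul_le_mul_of_nonneg_left hmean (by positivity)
  have h4 : ((N / Q : ℕ) : ℝ) * Q ≤ N := by exact_mod_cast Nat.div_mul_le_self N Q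
  have h5 : ((Q : ℕ) : ℝ) ≤ (z.factorial : ℝ) ^ 2 := by exact_mod_cast hQz
  have h6 : ((z.factorial : ℝ) ^ 2 + 4) ≤ N := by exact_mod_cast hN
  have h7 : ((N / Q : ℕ) + 1 : ℝ) * (Q / 4) = ((N / Q : ℕ) : ℝ) * Q / 4 + Q / 4 := by ring
  linarith

end Pool.Agent.Y220.EL
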